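import Mathlib

/-!
# Integration against a measure with a density in a chart
-/

open scoped Manifold ContDiff ENNReal Topology BigOperators
open MeasureTheory Set Filter

namespace Pool.Agent.Idx11

noncomputable section

variable {M E G : Type*} [TopologicalSpace M] [MeasurableSpace M] [BorelSpace M]
  [TopologicalSpace E] [MeasurableSpace E] [BorelSpace E]
  [NormedAddCommGroup G] [NormedSpace ℝ G]

/-- The inverse of the chart as a map from the target. -/
theorem measurableEmbedding_symm (e : OpenPartialHomeomorph M E) :
    MeasurableEmbedding (fun y : e.target => e.symm y.1) := by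
  have h1 : MeasurableEmbedding (Subtype.val : e.source → M) :=
    MeasurableEmbedding.subtype_coe e.open_source.measurableSet
  have h2 : MeasurableEmbedding (e.toHomeomorphSourceTarget.symm : e.target → e.source) :=
    e.toHomeomorphSourceTarget.symm.measurableEmbedding
  exact h1.comp h2

/-- The measure with density `D` in the chart `e`, transported to the manifold. -/
theorem restrict_eq_map {μ : Measure M} {lam : Measure E} (e : OpenPartialHomeomorph M E)
    {D : E → ℝ≥0∞}
    (h : ∀ A : Set M, MeasurableSet A → A ⊆ e.source → μ A = ∫⁻ y in e '' A, D y ∂lam) :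
    μ.restrict e.source =
      Measure.map (fun y : e.target => e.symm y.1)
        (Measure.comap Subtype.val (lam.withDensity D)) := by
  have hms : Measurable (fun y : e.target => e.symm y.1) := (measurableEmbedding_symm e).measurable
  have hemb := MeasurableEmbedding.subtype_coe e.open_target.measurableSet
  ext A hA
  rw [Measure.restrict_apply hA, Measure.map_apply hms hA, hemb.comap_apply]
  have himg : e '' (A ∩ e.source) = Subtype.val ''
      ((fun y : e.target => e.symm y.1) ⁻¹' A) := by
    ext y
    constructor
    · rintro ⟨p, ⟨hp, hps⟩, rfl⟩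
      refine ⟨⟨e p, e.map_source hps⟩, ?_, rfl⟩
      change e.symm (e p) ∈ A
      rwa [e.left_inv hps]
    · rintro ⟨⟨z, hz⟩, h2, rfl⟩
      exact ⟨e.symm z, ⟨h2, e.map_target hz⟩, e.right_inv hz⟩
  have hmeas : MeasurableSet (e '' (A ∩ e.source)) := by
    rw [himg]
    exact hemb.measurableSet_image.2 (hms hA)
  rw [← himg, withDensity_apply _ hmeas]
  exact h _ (hA.inter e.open_source.measurableSet) inter_subset_right

/-- Integrals over the domain of a chart. -/
theorem setIntegral_source {μ : Measure M} {lam : Measure E} (e : OpenPartialHomeomorph M E)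
    {d : E → ℝ} (hd : AEMeasurable d (lam.restrict e.target)) (h0 : ∀ y ∈ e.target, 0 ≤ d y)
    (h : ∀ A : Set M, MeasurableSet A → A ⊆ e.source →
      μ A = ∫⁻ y in e '' A, ENNReal.ofReal (d y) ∂lam) (f : M → G) :
    ∫ p in e.source, f p ∂μ = ∫ y in e.target, d y • f (e.symm y) ∂lam := by
  rw [restrict_eq_map e h, (measurableEmbedding_symm e).integral_map,
    integral_subtype_comap e.open_target.measurableSet (fun y => f (e.symm y)),
    setIntegral_withDensity_eq_setIntegral_toReal_smul₀ hd.ennreal_ofReal
      (ae_of_all _ fun y => ENNReal.ofReal_lt_top) _ e.open_target.measurableSet]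
  refine setIntegral_congr_fun e.open_target.measurableSet fun y hy => ?_
  simp only [ENNReal.toReal_ofReal (h0 y hy)]

/-- Integrability over the domain of a chart. -/
theorem integrableOn_source {μ : Measure M} {lam : Measure E} (e : OpenPartialHomeomorph M E)
    {d : E → ℝ} (hd : AEMeasurable d (lam.restrict e.target)) (h0 : ∀ y ∈ e.target, 0 ≤ d y)
    (h : ∀ A : Set M, MeasurableSet A → A ⊆ e.source →
      μ A = ∫⁻ y in e '' A, ENNReal.ofReal (d y) ∂lam) (f : M → G) :
    IntegrableOn f e.source μ ↔ IntegrableOn (fun y => d y • f (e.symm y)) e.target lam := by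
  have hemb := MeasurableEmbedding.subtype_coe (α := E) e.open_target.measurableSet
  rw [IntegrableOn, restrict_eq_map e h, (measurableEmbedding_symm e).integrable_map_iff]
  have h1 : (Integrable (f ∘ fun y : e.target => e.symm y.1)
      (Measure.comap Subtype.val (lam.withDensity fun y => ENNReal.ofReal (d y)))) ↔
      Integrable (fun y => f (e.symm y))
        (Measure.map Subtype.val
          (Measure.comap (Subtype.val : e.target → E)
            (lam.withDensity fun y => ENNReal.ofReal (d y)))) := by
    rw [hemb.integrable_map_iff]
    rfl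
  rw [h1, map_comap_subtype_coe e.open_target.measurableSet,
    restrict_withDensity e.open_target.measurableSet,
    integrable_withDensity_iff_integrable_smul₀' hd.ennreal_ofReal
      (ae_of_all _ fun y => ENNReal.ofReal_lt_top)]
  refine integrable_congr ?_
  filter_upwards [ae_restrict_mem e.open_target.measurableSet] with y hy
  simp only [ENNReal.toReal_ofReal (h0 y hy)]

/-- The integral of a function which vanishes outside the domain of a chart. -/
theorem integral_eq_chart {μ : Measure M} {lam : Measure E} (e : OpenPartialHomeomorph M E)
    {d : E → ℝ} (hd : AEMeasurable d (lam.restrict e.target)) (h0 : ∀ y ∈ e.target, 0 ≤ d y)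
    (h : ∀ A : Set M, MeasurableSet A → A ⊆ e.source →
      μ A = ∫⁻ y in e '' A, ENNReal.ofReal (d y) ∂lam) {f : M → G}
    (hf : ∀ p, p ∉ e.source → f p = 0) :
    ∫ p, f p ∂μ = ∫ y in e.target, d y • f (e.symm y) ∂lam := by
  rw [← setIntegral_source e hd h0 h f, setIntegral_eq_integral_of_forall_compl_eq_zero hf]

end

end Pool.Agent.Idx11
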